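import Pool.Agent.Y587.DeltaQ

/-!
# Squares of Δ-sets of reals

For a Q-set `X` the square `X × X` is a Δ-space if and only if `X × X` is a Q-space (every subset
is a relative `G_δ`), and every Q-set is a Δ-set. So every Q-set whose square is not a Q-set is a
Δ-set whose square is not a Δ-set.
-/

set_option autoImplicit false

namespace Pool.Agent.Results.MP_d5ec8b_lc.NonDeltaSquare

open Pool.Agent.Y587.DeltaQ

/-- Main theorem. -/
theorem result :
    -- every Q-set of reals whose square is not a Q-set is a Δ-set whose square is not a Δ-set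
    (∀ X : Set ℝ, (∀ E : Set X, IsGδ E) → (¬ ∀ E : Set (X × X), IsGδ E) →
      DeltaSpace X ∧ ¬ DeltaSpace (X × X)) ∧
    -- for two Q-sets of reals, the product is a Δ-space iff all its subsets are `G_δ`
    (∀ X Y : Set ℝ, (∀ E : Set X, IsGδ E) → (∀ E : Set Y, IsGδ E) →
      (DeltaSpace (X × Y) ↔ ∀ E : Set (X × Y), IsGδ E)) ∧
    -- the same for all finite powers of a second countable space all of whose subsets are `G_δ`
    (∀ (X : Type) (_ : TopologicalSpace X) (_ : SecondCountableTopology X),
      (∀ E : Set X, IsGδ E) → ∀ n : ℕ,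
        (DeltaSpace (Fin n → X) ↔ ∀ E : Set (Fin n → X), IsGδ E)) ∧
    -- in every Δ-set, in the line or in a finite power of it, all Borel sets are `F_σ` and `G_δ`
    (∀ (n : ℕ) (X : Set (Fin n → ℝ)), DeltaSpace X → ∀ B : Set X, MeasurableSet B →
      IsGδ B ∧ IsGδ Bᶜ) := by
  refine ⟨?_, ?_, ?_, ?_⟩
  · intro X hX hXX
    exact ⟨QSpace.deltaSpace hX, fun h => hXX (QSpace.prod_of_deltaSpace hX hX h)⟩
  · intro X Y hX hY
    exact ⟨fun h => QSpace.prod_of_deltaSpace hX hY h, fun h => QSpace.deltaSpace h⟩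
  · intro X _ _ hX n
    exact QSpace.pow_iff hX n
  · intro n X hX B hB
    exact hX.isGδ_of_measurable (fun F hF => hF.isGδ) B hB

end Pool.Agent.Results.MP_d5ec8b_lc.NonDeltaSquare
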